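import Mathlib
import Pool.Agent.H17.Odd
import Pool.Agent.H17.Jones

namespace Pool.Agent.Results.MP_e6ac2b_gt.Yes

open Set Pool.Agent.H17

theorem result : ∃ (G : Type) (_ : AddCommGroup G) (_ : TopologicalSpace G),
    (∀ a : G, Continuous fun x => a + x) ∧ (∀ a : G, Continuous fun x => x + a) ∧
      Continuous (fun x : G => -x) ∧ T1Space G ∧ RegularSpace G ∧
        TopologicalSpace.SeparableSpace G ∧ ¬ CompletelyRegularSpace G := by
  obtain ⟨ν, hν⟩ := Jones.exists_type
  obtain ⟨c, h1, h2⟩ := Jones.coords (ν := ν)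
  obtain ⟨t, ha, hT, hR, hS, i, r, hi, hr, hri⟩ := Odd.exists_group h1 h2
  refine ⟨Jones.X ν →₀ ZMod 2, inferInstance, t, ha, fun a => (ha a).congr fun x => add_comm _ _,
    continuous_id.congr fun x => ?_, hT, hR, hS, fun h => ?_⟩
  · ext y
    exact (CharTwo.neg_eq _).symm
  · obtain ⟨f, hf, h0, hK⟩ := h.completely_regular (i (.inl 0)) (r ⁻¹' (Jones.N ν (.inl 0) 1)ᶜ)
      ((Jones.N_open _ _).isClosed_compl.preimage hr)
      (fun h => h (by rw [hri]; exact Jones.self_mem _ _))
    refine Jones.not_sep hν (fun x => f (i x)) (continuous_subtype_val.comp (hf.comp hi))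
      (fun x hx => ?_) (by simp [h0])
    have := hK (x := i x) (by rwa [mem_preimage, hri])
    simp [this]

end Pool.Agent.Results.MP_e6ac2b_gt.Yes
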